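import Pool.Agent.W209.CF.Basic

/-!
CF3: F9, F10, dis.
-/

namespace Pool.Agent.W999.CF3

open Finset Pool.Agent.W209.CF

section
variable {V E : Type} [Fintype V] [DecidableEq V] [Fintype E] [DecidableEq E]
variable {inc : E → Finset V}

theorem mem_LL_dg {s : E → Fin 3} {X : Finset E} {v : V} (h : v ∈ LL inc s X) : dg inc s v = 0 := by
  unfold LL at h
  rw [mem_filter, mem_holes] at h
  exact h.1

/-- a hole other than `u` is not a vertex of `KK s h` -/
theorem hole_notMem {s : E → Fin 3} {u w : V} {h : E} (hE : Entry inc s u h)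
    (hw : dg inc s w = 0) (hne : w ≠ u) : w ∉ VK inc (KK inc s h) := by
  intro hm
  rw [mem_VK] at hm
  obtain ⟨e, he, hwe⟩ := hm
  rw [KK, mem_insert] at he
  rcases he with rfl | he
  · have := hE.2.2 w hwe hne
    omega
  · exact (mem_comp.1 he).1 (dg_eq_zero.1 hw e hwe)

/-- a vertex of `KK s h` other than `u` lies in a hyperedge of the component -/
theorem exists_comp {s : E → Fin 3} {u x : V} {h : E} (hE : Entry inc s u h)
    (hx : x ∈ VK inc (KK inc s h)) (hne : x ≠ u) : ∃ e ∈ comp inc s h, x ∈ inc e := by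
  rw [mem_VK] at hx
  obtain ⟨e, he, hxe⟩ := hx
  rw [KK, mem_insert] at he
  rcases he with rfl | he
  · have h1 : dg inc s x ≠ 0 := by
      rw [hE.2.2 x hxe hne]; decide
    obtain ⟨e', h2, h3⟩ := dg_pos.1 h1
    exact ⟨e', comp_touch h3 hxe h2, h2⟩
  · exact ⟨e, he, hxe⟩

theorem rtg_symm {s : E → Fin 3} {e f : E} (h : Relation.ReflTransGen (Adj inc s) e f) :
    Relation.ReflTransGen (Adj inc s) f e := by
  induction h with
  | refl => exact Relation.ReflTransGen.refl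
  | tail _ hab ih => exact Relation.ReflTransGen.head (Adj.symm hab) ih

/-- components are closed -/
theorem comp_rtg {s : E → Fin 3} {h e f : E} (he : e ∈ comp inc s h)
    (hr : Relation.ReflTransGen (Adj inc s) e f) : f ∈ comp inc s h := by
  induction hr with
  | refl => exact he
  | tail _ hab ih => exact comp_closed ih hab

/-- any two members of the component are connected -/
theorem comp_conn (h1 : S_F1) (hinc : ∀ e, (inc e).card = 3) {s : E → Fin 3} (hs : Opt2 inc s)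
    {u : V} {h : E} (hE : Entry inc s u h) {e f : E} (he : e ∈ comp inc s h)
    (hf : f ∈ comp inc s h) : Relation.ReflTransGen (Adj inc s) e f := by
  rw [mem_comp] at he hf
  obtain ⟨-, e0, he0, ⟨a, ha, ha'⟩, re⟩ := he
  obtain ⟨-, f0, hf0, ⟨b, hb, hb'⟩, rf⟩ := hf
  have hau : a ≠ u := by
    rintro rfl
    exact he0 (dg_eq_zero.1 hE.2.1 e0 ha')
  have hbu : b ≠ u := by
    rintro rfl
    exact hf0 (dg_eq_zero.1 hE.2.1 f0 hb')
  have hc : Relation.ReflTransGen (Adj inc s) e0 f0 := by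
    by_cases hab : a = b
    · subst hab
      exact Relation.ReflTransGen.single ⟨he0, hf0, a, ha', hb'⟩
    · exact (h1 V E inc hinc s hs u h hE a ha b hb hau hbu hab e0 f0 he0 ha' hf0 hb').1
  exact (rtg_symm re).trans (hc.trans rf)

/-- a family which is not left by adjacency -/
theorem rtg_stay {s : E → Fin 3} {K : Finset E}
    (hK : ∀ e1 ∈ K, ∀ e2, Adj inc s e1 e2 → e2 ∈ K) {e f : E} (he : e ∈ K)
    (hr : Relation.ReflTransGen (Adj inc s) e f) : f ∈ K := by
  induction hr with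
  | refl => exact he
  | tail _ hab ih => exact hK _ ih _ hab

/-- three distinct vertices of a hyperedge -/
theorem three {A : Finset V} (hA : A.card = 3) {x y z : V} (hx : x ∈ A) (hy : y ∈ A) (hz : z ∈ A)
    (hxy : x ≠ y) (hxz : x ≠ z) (hyz : y ≠ z) {v : V} (hv : v ∈ A) : v = x ∨ v = y ∨ v = z := by
  have h1 : ({x, y, z} : Finset V) = A := by
    apply Finset.eq_of_subset_of_card_le
    · intro t ht
      simp only [mem_insert, mem_singleton] at ht
      rcases ht with rfl | rfl | rfl <;> assumption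
    · rw [hA, Finset.card_eq_three.2 ⟨x, y, z, hxy, hxz, hyz, rfl⟩]
  rw [← h1] at hv
  simpa using hv

end

theorem dis (h1 : S_F1) : S_dis := by
  intro V E _ _ _ _ inc hinc s hs u u' huu h h' hE hE' hne
  rw [Finset.disjoint_left]
  intro v hv hv'
  apply hne
  have hvu : v ≠ u := by
    rintro rfl
    exact hole_notMem hE' hE.2.1 huu hv'
  have hvu' : v ≠ u' := by
    rintro rfl
    exact hole_notMem hE hE'.2.1 huu.symm hv
  obtain ⟨e, he, hve⟩ := exists_comp hE hv hvu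
  obtain ⟨e', he', hve'⟩ := exists_comp hE' hv' hvu'
  have hadj : Adj inc s e e' := ⟨(mem_comp.1 he).1, (mem_comp.1 he').1, v, hve, hve'⟩
  ext f
  constructor
  · intro hf
    exact comp_rtg he' (Relation.ReflTransGen.head hadj.symm (comp_conn h1 hinc hs hE he hf))
  · intro hf
    exact comp_rtg he (Relation.ReflTransGen.head hadj (comp_conn h1 hinc hs hE' he' hf))

theorem f9 (h1 : S_F1) (h2 : S_F2) (_hO : S_oddK) (hmv : S_move) (h8 : S_F8p) : S_F9 := by
  intro V E _ _ _ _ inc hinc s X hs u hu w hw hwu h hE f hwf x hxf hxK z hzf hzw hzK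
  have hw0 := mem_LL_dg hw
  have hkx := h8 V E inc hinc s X hs u hu w hw hwu h hE f hwf x hxf hxK
  have hwK := hole_notMem hE hw0 hwu
  have hxw : x ≠ w := by
    rintro rfl; exact hwK hxK
  have hxz : x ≠ z := by
    rintro rfl; exact hzK hxK
  obtain ⟨e, heK, hxe⟩ := mem_VK.1 hxK
  obtain ⟨s', p, -, hkp, hs', hout, -, hLL, hE', -, -⟩ := hmv V E inc hinc s X hs u hu h hE e heK
  have hw' : w ∈ LL inc s' X := by
    rw [hLL, mem_insert, mem_erase]
    exact Or.inr ⟨hwu, hw⟩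
  have hw0' := mem_LL_dg hw'
  have hxp : x ≠ p := by
    rintro rfl
    omega
  have hx1 : dg inc s' x = 1 := hE'.2.2 x hxe hxp
  have hz' : dg inc s' z = dg inc s z := by
    apply dg_congr
    intro e' he'
    apply hout
    intro heK'
    exact hzK (mem_VK.2 ⟨e', heK', he'⟩)
  have hle := St_dg_le hs.1.1.1 z
  by_contra hz2
  rcases Nat.eq_zero_or_pos (dg inc s z) with h0 | h0
  · obtain ⟨t, ht, -, -, ht2, -⟩ := h2 V E inc hinc s' hs'.1 f w hwf z hzf hzw.symm hw0'
      (by rw [hz', h0])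
    rw [ht] at hxf
    simp only [mem_insert, mem_singleton] at hxf
    rcases hxf with hxf | hxf | hxf
    · exact hxw hxf
    · exact hxz hxf
    · rw [← hxf] at ht2
      omega
  · have hz1 : dg inc s' z = 1 := by omega
    have hEf : Entry inc s' w f := by
      refine ⟨hwf, hw0', fun v hv hvw => ?_⟩
      rcases three (hinc f) hwf hxf hzf hxw.symm hzw.symm hxz hv with rfl | rfl | rfl
      · exact absurd rfl hvw
      · exact hx1
      · exact hz1
    obtain ⟨ea, hxea, hea⟩ := dg_pos.1 (show dg inc s' x ≠ 0 by omega)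
    obtain ⟨eb, hzeb, heb⟩ := dg_pos.1 (show dg inc s' z ≠ 0 by omega)
    have hr := (h1 V E inc hinc s' hs'.1 w f hEf x hxf z hzf hxw hzw hxz ea eb hea hxea heb hzeb).1
    have stay : ∀ e2, s' e2 ≠ 0 → (∃ v ∈ VK inc (KK inc s h), v ∈ inc e2) → e2 ∈ KK inc s h := by
      rintro e2 h3 ⟨v, hv, hv2⟩
      by_contra h4
      rw [hout e2 h4] at h3
      exact Finset.disjoint_left.1 (KK_iso h3 h4) hv2 hv
    have hbK : eb ∈ KK inc s h := by
      refine rtg_stay (K := KK inc s h) ?_ (stay ea hea ⟨x, hxK, hxea⟩) hr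
      rintro e1 he1 e2 ⟨-, h4, v, h5, h6⟩
      exact stay e2 h4 ⟨v, mem_VK.2 ⟨e1, he1, h5⟩, h6⟩
    exact hzK (mem_VK.2 ⟨eb, hbK, hzeb⟩)

theorem f10 (h1 : S_F1) (_h2 : S_F2) (_hO : S_oddK) (hmv : S_move) (hloc : S_local) (h8 : S_F8p)
    (hdis : S_dis) : S_F10 := by
  intro V E _ _ _ _ inc hinc s X hs u hu u' hu' w hw huu hwu hwu' h h' hE hE' hne f hwf x hxf x'
    hxf' hxK hxK'
  have hw0 := mem_LL_dg hw
  have hkx := h8 V E inc hinc s X hs u hu w hw hwu h hE f hwf x hxf hxK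
  have hkx' := h8 V E inc hinc s X hs u' hu' w hw hwu' h' hE' f hwf x' hxf' hxK'
  have hwK := hole_notMem hE hw0 hwu
  have hwK' := hole_notMem hE' hw0 hwu'
  have hdj := hdis V E inc hinc s hs.1 u u' huu h h' hE hE' hne
  have hdl := Finset.disjoint_left.1 hdj
  have hxw : x ≠ w := by
    rintro rfl; exact hwK hxK
  have hxw' : x' ≠ w := by
    rintro rfl; exact hwK' hxK'
  have hxx : x ≠ x' := by
    rintro rfl; exact hdl hxK hxK'
  obtain ⟨e, heK, hxe⟩ := mem_VK.1 hxK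
  obtain ⟨e', heK', hxe'⟩ := mem_VK.1 hxK'
  obtain ⟨s1, p, -, hkp, hs1, hout, -, hLL, hE1, -, -⟩ := hmv V E inc hinc s X hs u hu h hE e heK
  obtain ⟨hc, hent⟩ := hloc V E inc hinc s s1 (KK inc s h) hout (fun e2 h3 h4 => KK_iso h3 h4) h'
    (by
      rw [Finset.disjoint_left]
      intro v hv hv2
      exact hdl hv2 (mem_VK.2 ⟨h', by rw [KK]; exact mem_insert_self _ _, hv⟩))
  have hE1' : Entry inc s1 u' h' := (hent u').2 hE'
  have hKK : KK inc s1 h' = KK inc s h' := by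
    rw [KK, KK, hc]
  have hu1 : u' ∈ LL inc s1 X := by
    rw [hLL, mem_insert, mem_erase]
    exact Or.inr ⟨huu.symm, hu'⟩
  have hw1 : w ∈ LL inc s1 X := by
    rw [hLL, mem_insert, mem_erase]
    exact Or.inr ⟨hwu, hw⟩
  obtain ⟨s2, p', -, hkp', hs2, hout', -, hLL', hE2, -, -⟩ :=
    hmv V E inc hinc s1 X hs1 u' hu1 h' hE1' e' (by rw [hKK]; exact heK')
  rw [hKK] at hkp' hout'
  have hw2 : w ∈ LL inc s2 X := by
    rw [hLL', mem_insert, mem_erase]
    exact Or.inr ⟨hwu', hw1⟩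
  have hw20 := mem_LL_dg hw2
  have hxp : x ≠ p := by
    rintro rfl
    omega
  have hxp' : x' ≠ p' := by
    rintro rfl
    omega
  have hx1 : dg inc s1 x = 1 := hE1.2.2 x hxe hxp
  have hx2' : dg inc s2 x' = 1 := hE2.2.2 x' hxe' hxp'
  have hx2 : dg inc s2 x = 1 := by
    rw [← hx1]
    apply dg_congr
    intro e2 he2
    apply hout'
    intro h4
    exact hdl hxK (mem_VK.2 ⟨e2, h4, he2⟩)
  have hEf : Entry inc s2 w f := by
    refine ⟨hwf, hw20, fun v hv hvw => ?_⟩
    rcases three (hinc f) hwf hxf hxf' hxw.symm hxw'.symm hxx hv with rfl | rfl | rfl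
    · exact absurd rfl hvw
    · exact hx2
    · exact hx2'
  obtain ⟨ea, hxea, hea⟩ := dg_pos.1 (show dg inc s2 x ≠ 0 by omega)
  obtain ⟨eb, hxeb, heb⟩ := dg_pos.1 (show dg inc s2 x' ≠ 0 by omega)
  have hr := (h1 V E inc hinc s2 hs2.1 w f hEf x hxf x' hxf' hxw hxw' hxx ea eb hea hxea heb hxeb).1
  have stay : ∀ e2, s2 e2 ≠ 0 → (∃ v ∈ VK inc (KK inc s h), v ∈ inc e2) → e2 ∈ KK inc s h := by
    rintro e2 h3 ⟨v, hv, hv2⟩
    by_contra h4
    have h5 : e2 ∉ KK inc s h' := by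
      intro h5
      exact hdl hv (mem_VK.2 ⟨e2, h5, hv2⟩)
    rw [hout' e2 h5, hout e2 h4] at h3
    exact Finset.disjoint_left.1 (KK_iso h3 h4) hv2 hv
  have hbK : eb ∈ KK inc s h := by
    refine rtg_stay (K := KK inc s h) ?_ (stay ea hea ⟨x, hxK, hxea⟩) hr
    rintro e1 he1 e2 ⟨-, h4, v, h5, h6⟩
    exact stay e2 h4 ⟨v, mem_VK.2 ⟨e1, he1, h5⟩, h6⟩
  exact hdl (mem_VK.2 ⟨eb, hbK, hxeb⟩) hxK'

end Pool.Agent.W999.CF3
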