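import Pool.Agent.W209.CF.Basic

/-!
CF3: PH1 and PH2 (processing tokens in order).
-/

namespace Pool.Agent.W999.CF3PH

open Finset Pool.Agent.W209.CF

theorem ph1 (hst : S_start) (hstep : S_step) : S_ph1 := by
  classical
  intro V E _ _ _ _ inc hinc s D
  have main : ∀ Q : Finset V, Q ⊆ D.T.filter (fun w => dg inc s (D.σ w) = 1) →
      ∃ c S, Inv D c Q S ∧ Zst D c ∧
        ∀ u ∈ S, ∃ w' ∈ Q, ∃ v ∈ inc (D.g w'), v ∈ VK inc (D.K u) := by
    intro Q
    induction Q using Finset.induction_on with
    | empty =>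
      intro _
      obtain ⟨c, h1, h2⟩ := hst V E inc hinc s D
      exact ⟨c, ∅, h1, h2, fun u hu => absurd hu (Finset.notMem_empty _)⟩
    | insert w Q hwQ ih =>
      intro hsub
      obtain ⟨c, S, hI, hZ, hS⟩ := ih (fun x hx => hsub (mem_insert_of_mem hx))
      have hw := hsub (mem_insert_self w Q)
      rw [mem_filter] at hw
      obtain ⟨hwT, hw1⟩ := hw
      obtain ⟨u, huU, hσ, hτ⟩ : ∃ u ∈ D.U, D.σ w ∈ VK inc (D.K u) ∧ D.τ w ∈ VK inc (D.K u) := by
        rcases D.hslot w hwT with h | h
        · omega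
        · exact h.2
      have huS : u ∉ S := by
        intro huS
        obtain ⟨w', hw'Q, v, hv, hvK⟩ := hS u huS
        have hw' := hsub (mem_insert_of_mem hw'Q)
        rw [mem_filter] at hw'
        obtain ⟨u', hu'U, hσ', -⟩ :
            ∃ u ∈ D.U, D.σ w' ∈ VK inc (D.K u) ∧ D.τ w' ∈ VK inc (D.K u) := by
          rcases D.hslot w' hw'.1 with h | h
          · omega
          · exact h.2
        have hmem : D.σ w' ∈ inc (D.g w') := by
          rw [(D.hg w' hw'.1).1]; simp
        have huu := D.hone w' hw'.1 u huU u' hu'U v hv (D.σ w') hmem hvK hσ'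
        rw [← huu] at hσ'
        have := D.hC w hwT w' hw'.1 u huU hw1 hw'.2 hσ hσ'
        rw [this] at hwQ
        exact hwQ hw'Q
      obtain ⟨c', S', hSS, hI', hS', hcnt, hext⟩ := hstep V E inc hinc s D c Q S w hI hwT hwQ
        (fun h => absurd hσ (h u huU huS))
        (fun w' hw'T hw'Q hne h2 heq => by
          have h3 : dg inc s (D.τ w) = 2 := by rw [← heq]; exact h2
          have h4 := D.hord w hwT (by rw [h3]; decide)
          have h5 := D.hord1 (D.σ w) (D.τ w) hw1 h3
          omega)
      refine ⟨c', S', hI', ?_, ?_⟩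
      · intro z hz hzX
        obtain ⟨h2, e, he, hze, hv⟩ := hZ z hz hzX
        have key : ∀ v ∈ inc e, ∀ i, i ≠ 0 → cnt inc c' i v = cnt inc c i v := by
          intro v hve
          have hnb : ¬ bad D Q S v := by
            intro hb
            have := dg_eq_zero.1 (hI.zero v hb) e hve
            rw [he] at this
            exact absurd this (by decide)
          refine hcnt v ?_ ?_
          · intro hvg
            rw [(D.hg w hwT).1] at hvg
            simp only [mem_insert, mem_singleton] at hvg
            rcases hvg with rfl | rfl | rfl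
            · exact hnb (Or.inl ⟨hwT, hwQ⟩)
            · exact hnb (Or.inr ⟨u, huU, huS, hσ⟩)
            · exact hnb (Or.inr ⟨u, huU, huS, hτ⟩)
          · intro u1 hu1 hu2 hu3
            exact hnb (Or.inr ⟨u1, hu1, hu2, hu3⟩)
        refine ⟨?_, e, ?_, hze, fun v hve hvz => ?_⟩
        · rw [key z hze 1 (by decide)]; exact h2
        · rw [hext e (by rw [he]; decide), he]
        · rw [key v hve 1 (by decide), key v hve 2 (by decide)]
          exact hv v hve hvz
      · intro u1 hu1
        rcases hS' u1 hu1 with h | ⟨v, hv, hvK⟩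
        · obtain ⟨w', hw', h3⟩ := hS u1 h
          exact ⟨w', mem_insert_of_mem hw', h3⟩
        · exact ⟨w, mem_insert_self _ _, v, hv, hvK⟩
  obtain ⟨c, S, hI, hZ, -⟩ := main _ (Finset.Subset.refl _)
  exact ⟨c, _, S, hI, hZ, fun w => by rw [mem_filter]⟩

theorem ph2 (hstep : S_step) : S_ph2 := by
  classical
  intro V E _ _ _ _ inc hinc s D c P S hI hP
  have main : ∀ n : ℕ, ∀ (c : E → Fin 3) (P S : Finset V), Inv D c P S → (D.T \ P).card = n →
      (∀ w ∈ D.T, w ∉ P → dg inc s (D.σ w) = 2 ∧ ¬ ∃ x ∈ D.X, D.σ w ∈ inc x) →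
      ∃ c' S', Inv D c' D.T S' := by
    intro n
    induction n with
    | zero =>
      intro c P S hI hn _
      have h1 : D.T ⊆ P := by
        rw [Finset.card_eq_zero, Finset.sdiff_eq_empty_iff_subset] at hn
        exact hn
      have h2 : P = D.T := Finset.Subset.antisymm hI.hP h1
      subst h2
      exact ⟨c, S, hI⟩
    | succ n ih =>
      intro c P S hI hn hrest
      have hne : (D.T \ P).Nonempty := by
        rw [← Finset.card_pos]; omega
      obtain ⟨w, hw, hmin⟩ := (D.T \ P).exists_min_image (fun w => D.ord (D.σ w)) hne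
      rw [mem_sdiff] at hw
      obtain ⟨c', S', -, hI', -, -, -⟩ := hstep V E inc hinc s D c P S w hI hw.1 hw.2
        (fun h => hI.tie w hw.1 hw.2 (hrest w hw.1 hw.2).1 (hrest w hw.1 hw.2).2 h)
        (fun w' hw'T hw'P _ h2 heq => by
          have h3 : dg inc s (D.τ w) ≠ 0 := by rw [← heq, h2]; decide
          have h4 := D.hord w hw.1 h3
          have h5 := hmin w' (mem_sdiff.2 ⟨hw'T, hw'P⟩)
          rw [heq] at h5
          omega)
      refine ih c' (insert w P) S' hI' ?_ ?_
      · have h1 : D.T \ insert w P = (D.T \ P).erase w := by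
          ext x
          simp only [mem_sdiff, mem_insert, mem_erase]
          tauto
        rw [h1, Finset.card_erase_of_mem (mem_sdiff.2 hw), hn]
        rfl
      · intro w' h1 h2
        exact hrest w' h1 (fun h => h2 (mem_insert_of_mem h))
  refine main _ c P S hI rfl ?_
  intro w hwT hwP
  rw [hP] at hwP
  push Not at hwP
  have h1 := hwP hwT
  refine ⟨?_, ?_⟩
  · rcases D.hslot w hwT with h | h
    · exact h
    · exact absurd h.1 h1.1
  · rintro ⟨x, hx, hx2⟩
    exact h1.2 x hx hx2

end Pool.Agent.W999.CF3PH
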