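import Pool.Agent.W209.CF.Basic

/-!
CF3: at least `r - 2` usable hyperedges.
-/

namespace Pool.Agent.W999.CF3U

open Finset Pool.Agent.W209.CF

section
variable {V E : Type} [Fintype V] [DecidableEq V] [Fintype E] [DecidableEq E]
variable {inc : E → Finset V}

theorem dg_one_unique {s : E → Fin 3} {v : V} (h : dg inc s v = 1) {e e' : E}
    (he : v ∈ inc e) (hs : s e ≠ 0) (he' : v ∈ inc e') (hs' : s e' ≠ 0) : e = e' := by
  rw [dg_eq_card] at h
  refine Finset.card_le_one.1 h.le e ?_ e' ?_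
  · simp [he, hs]
  · simp [he', hs']

/-- the two other vertices of a hyperedge -/
theorem others {A : Finset V} (hA : A.card = 3) {u : V} (hu : u ∈ A) :
    ∃ y z, y ≠ z ∧ y ∈ A ∧ z ∈ A ∧ y ≠ u ∧ z ≠ u ∧ ∀ v ∈ A, v ≠ u → v = y ∨ v = z := by
  have h1 : (A.erase u).card = 2 := by rw [Finset.card_erase_of_mem hu, hA]
  obtain ⟨y, z, hyz, h2⟩ := Finset.card_eq_two.1 h1
  have hy : y ∈ A.erase u := by rw [h2]; simp
  have hz : z ∈ A.erase u := by rw [h2]; simp
  rw [mem_erase] at hy hz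
  refine ⟨y, z, hyz, hy.2, hz.2, hy.1, hz.1, fun v hv hvu => ?_⟩
  have : v ∈ A.erase u := mem_erase.2 ⟨hvu, hv⟩
  rw [h2] at this
  simpa using this

/-- unusable hyperedges at the hole `u` -/
structure Bd (inc : E → Finset V) (s : E → Fin 3) (u : V) (D : Finset E) (h : E) : Prop where
  en : Entry inc s u h
  wk : weakK inc (KK inc s h)
  co : comp inc s h = D

variable {s : E → Fin 3} {u : V} {D : Finset E}

theorem Bd.zero {h : E} (hb : Bd inc s u D h) : s h = 0 :=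
  dg_eq_zero.1 hb.en.2.1 h hb.en.1

theorem Bd.notMem {h h' : E} (_hb : Bd inc s u D h) (hb' : Bd inc s u D h') (hne : h' ≠ h) :
    h' ∉ KK inc s h := by
  rw [KK, mem_insert]
  rintro (h1 | h1)
  · exact hne h1
  · exact (mem_comp.1 h1).1 hb'.zero

theorem Bd.sub {h h' : E} (hb : Bd inc s u D h) (hb' : Bd inc s u D h') :
    ∀ v ∈ inc h', v ∈ VK inc (KK inc s h) := by
  intro v hv
  rw [mem_VK]
  by_cases hvu : v = u
  · subst hvu
    exact ⟨h, by rw [KK]; exact mem_insert_self _ _, hb.en.1⟩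
  · have h1 : dg inc s v ≠ 0 := by rw [hb'.en.2.2 v hv hvu]; decide
    obtain ⟨e, h2, h3⟩ := dg_pos.1 h1
    refine ⟨e, ?_, h2⟩
    rw [KK, mem_insert]
    right
    rw [hb.co, ← hb'.co]
    exact comp_touch h3 hv h2

theorem Bd.kd1 (hinc : ∀ e, (inc e).card = 3) {h h' : E} (hb : Bd inc s u D h)
    (hb' : Bd inc s u D h') (hne : h' ≠ h) : ∀ v ∈ inc h', kd inc (KK inc s h) v = 1 := by
  intro v hv
  have h1 := hb.wk h' (hb.notMem hb' hne) (by
    have h2 : inc h' ∩ VK inc (KK inc s h) = inc h' := by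
      rw [Finset.inter_eq_left]
      exact hb.sub hb'
    rw [h2, hinc]
    norm_num)
  exact mem_pri.1 (h1 hv)

theorem Bd.disj (hO : S_oddK) (hinc : ∀ e, (inc e).card = 3) (hs : Opt2 inc s) {h h' : E}
    (hb : Bd inc s u D h)
    (hb' : Bd inc s u D h') (hne : h' ≠ h) : ∀ v ∈ inc h', v ≠ u → v ∉ inc h := by
  intro v hv hvu hvh
  have h1 := hb.kd1 hinc hb' hne v hv
  have h2 := (hO V E inc hinc s hs u h hb.en).2 v (hb.sub hb' v hv)
  rw [h1, hb'.en.2.2 v hv hvu, if_pos hvh] at h2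
  omega

/-- the coloured hyperedge at a vertex of `h'` meets `h` -/
theorem Bd.meet (hF1 : S_F1) (hO : S_oddK) (hinc : ∀ e, (inc e).card = 3) (hs : Opt2 inc s)
    {h h' : E} (hb : Bd inc s u D h)
    (hb' : Bd inc s u D h') (hne : h' ≠ h) {y z : V} (hy : y ∈ inc h') (hyu : y ≠ u)
    (hz : z ∈ inc h') (hzu : z ≠ u) (hyz : y ≠ z)
    {e : E} (he : s e ≠ 0) (hye : y ∈ inc e) : ∃ y' ∈ inc h, y' ≠ u ∧ y' ∈ inc e := by
  have h1 : dg inc s z ≠ 0 := by rw [hb'.en.2.2 z hz hzu]; decide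
  obtain ⟨ez, h2, h3⟩ := dg_pos.1 h1
  obtain ⟨-, -, ⟨a, ha, hay, hda⟩, -⟩ :=
    hF1 V E inc hinc s hs u h' hb'.en y hy z hz hyu hzu hyz e ez he hye h3 h2
  have heK : e ∈ KK inc s h := by
    rw [KK, mem_insert]
    right
    rw [hb.co, ← hb'.co]
    exact comp_touch he hy hye
  obtain ⟨hodd, hkd⟩ := hO V E inc hinc s hs u h hb.en
  obtain ⟨p, hp, hp1, hp2⟩ := hodd.pri1 e heK
  have hyp : y = p := by
    by_contra hyp
    have h4 := hp2 y hye hyp
    rw [hb.kd1 hinc hb' hne y hy] at h4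
    omega
  have h5 := hp2 a ha (by rw [← hyp]; exact hay)
  have h6 := hkd a (mem_VK.2 ⟨e, heK, ha⟩)
  rw [h5, hda] at h6
  have hah : a ∈ inc h := by
    by_contra hah
    rw [if_neg hah] at h6
    omega
  refine ⟨a, hah, ?_, ha⟩
  rintro rfl
  rw [hb.en.2.1] at hda
  omega

end

theorem uu (h1 : S_F1) (h2 : S_F2) (hO : S_oddK) : S_U := by
  classical
  intro V E _ _ _ _ inc hinc s X hs u hu hwk
  have hu0 : dg inc s u = 0 := by
    unfold LL at hu
    rw [mem_filter, mem_holes] at hu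
    exact hu.1
  refine ⟨univ.filter (fun f => Us inc s u f), fun f hf => (mem_filter.1 hf).2, ?_⟩
  set N := univ.filter (fun e => u ∈ inc e ∧ ¬ Us inc s u e) with hN
  have hsub : univ.filter (fun e => u ∈ inc e) ⊆ univ.filter (fun f => Us inc s u f) ∪ N := by
    intro e he
    rw [mem_filter] at he
    by_cases h3 : Us inc s u e
    · exact mem_union_left _ (mem_filter.2 ⟨mem_univ _, h3⟩)
    · exact mem_union_right _ (mem_filter.2 ⟨mem_univ _, he.2, h3⟩)
  have hcard : N.card ≤ 2 := by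
    by_contra hc
    rw [not_le, Finset.two_lt_card] at hc
    obtain ⟨a, ha, b, hb, c, hc, hab, hac, hbc⟩ := hc
    have hen : ∀ f ∈ N, Entry inc s u f ∧ weakK inc (KK inc s f) := by
      intro f hf
      rw [hN, mem_filter] at hf
      obtain ⟨-, huf, hus⟩ := hf
      have hE : Entry inc s u f := by
        refine ⟨huf, hu0, fun v hv hvu => ?_⟩
        have h3 := St_dg_le hs.1.1.1 v
        have h4 : dg inc s v ≠ 2 := fun h4 => hus ⟨huf, Or.inl ⟨v, hv, h4⟩⟩
        have h5 : dg inc s v ≠ 0 := by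
          intro h5
          obtain ⟨z, hz, -, -, hz2, -⟩ := h2 V E inc hinc s hs.1 f u huf v hv (Ne.symm hvu) hu0 h5
          exact hus ⟨huf, Or.inl ⟨z, by rw [hz]; simp, hz2⟩⟩
        omega
      refine ⟨hE, ?_⟩
      by_contra h6
      exact hus ⟨huf, Or.inr ⟨hE, h6⟩⟩
    have hw : ∀ f ∈ N, comp inc s f ∈ wks inc s u := by
      intro f hf
      unfold wks
      rw [mem_image]
      exact ⟨f, mem_filter.2 ⟨mem_univ _, hen f hf⟩, rfl⟩
    have hwe := Finset.card_le_one.1 hwk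
    have hA : Bd inc s u (comp inc s a) a := ⟨(hen a ha).1, (hen a ha).2, rfl⟩
    have hB : Bd inc s u (comp inc s a) b :=
      ⟨(hen b hb).1, (hen b hb).2, hwe _ (hw b hb) _ (hw a ha)⟩
    have hC : Bd inc s u (comp inc s a) c :=
      ⟨(hen c hc).1, (hen c hc).2, hwe _ (hw c hc) _ (hw a ha)⟩
    -- the vertices
    obtain ⟨y1, z1, hyz1, hy1, hz1, hyu1, hzu1, hall1⟩ := others (hinc a) hA.en.1
    obtain ⟨y2, z2, hyz2, hy2, hz2, hyu2, hzu2, hall2⟩ := others (hinc b) hB.en.1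
    obtain ⟨y3, z3, hyz3, hy3, hz3, hyu3, hzu3, hall3⟩ := others (hinc c) hC.en.1
    have q2 : dg inc s y2 ≠ 0 := by rw [hB.en.2.2 y2 hy2 hyu2]; decide
    have q3 : dg inc s y3 ≠ 0 := by rw [hC.en.2.2 y3 hy3 hyu3]; decide
    have q3' : dg inc s z3 ≠ 0 := by rw [hC.en.2.2 z3 hz3 hzu3]; decide
    obtain ⟨e2, hye2, he2⟩ := dg_pos.1 q2
    obtain ⟨e3, hye3, he3⟩ := dg_pos.1 q3
    obtain ⟨e3', hye3', he3'⟩ := dg_pos.1 q3'
    obtain ⟨t2, ht2, htu2, hte2⟩ := hA.meet h1 hO hinc hs.1 hB hab.symm hy2 hyu2 hz2 hzu2 hyz2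
      he2 hye2
    obtain ⟨t3, ht3, htu3, hte3⟩ := hA.meet h1 hO hinc hs.1 hC hac.symm hy3 hyu3 hz3 hzu3 hyz3
      he3 hye3
    obtain ⟨t3', ht3', htu3', hte3'⟩ := hA.meet h1 hO hinc hs.1 hC hac.symm hz3 hzu3 hy3 hyu3
      hyz3.symm he3' hye3'
    have hcol := (h1 V E inc hinc s hs.1 u c hC.en y3 hy3 z3 hz3 hyu3 hzu3 hyz3 e3 e3' he3 hye3
      he3' hye3').2.1
    have hne3 : t3 ≠ t3' := by
      intro h3
      rw [← h3] at hte3'
      have := dg_one_unique (hA.en.2.2 t3 ht3 htu3) hte3 he3 hte3' he3'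
      exact hcol (by rw [this])
    -- `e2` is `e3` or `e3'`
    have key : ∃ w ∈ inc c, w ≠ u ∧ w ∈ inc e2 := by
      have h3 : t2 = t3 ∨ t2 = t3' := by
        rcases hall1 t2 ht2 htu2 with h4 | h4 <;> rcases hall1 t3 ht3 htu3 with h5 | h5 <;>
          rcases hall1 t3' ht3' htu3' with h6 | h6 <;> subst h4 <;> simp_all
      rcases h3 with h3 | h3
      · rw [h3] at hte2
        have := dg_one_unique (hA.en.2.2 t3 ht3 htu3) hte2 he2 hte3 he3
        rw [this]
        exact ⟨y3, hy3, hyu3, hye3⟩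
      · rw [h3] at hte2
        have := dg_one_unique (hA.en.2.2 t3' ht3' htu3') hte2 he2 hte3' he3'
        rw [this]
        exact ⟨z3, hz3, hzu3, hye3'⟩
    obtain ⟨w, hwc, hwu, hwe2⟩ := key
    have heK : e2 ∈ KK inc s a := by
      rw [KK, mem_insert]
      right
      rw [← hB.co]
      exact comp_touch he2 hy2 hye2
    obtain ⟨hodd, -⟩ := hO V E inc hinc s hs.1 u a hA.en
    obtain ⟨p, hp, hp1, hp2⟩ := hodd.pri1 e2 heK
    have g1 : y2 = p := by
      by_contra h3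
      have h4 := hp2 y2 hye2 h3
      rw [hA.kd1 hinc hB hab.symm y2 hy2] at h4
      omega
    have g2 : w = p := by
      by_contra h3
      have h4 := hp2 w hwe2 h3
      rw [hA.kd1 hinc hC hac.symm w hwc] at h4
      omega
    have g3 := hB.disj hO hinc hs.1 hC hbc.symm w hwc hwu
    rw [g2, ← g1] at g3
    exact g3 hy2
  exact (Finset.card_le_card hsub).trans ((Finset.card_union_le _ _).trans (by omega))

end Pool.Agent.W999.CF3U
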